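import Pool.Agent.H68.GHY.Targets

/-!
Row EID of the board ghy: invariance of the energy.
-/

namespace Pool.Agent.H27.GHY

open MeasureTheory Pool.Agent.H34.GM Pool.Agent.H34.GZ Pool.Agent.H34.GU Pool.Agent.H34.GA
open Pool.Agent.H68.GHY

theorem row_mul {m : ℕ} (α β : ZM m) (i : Fin m) : (α * β) i = Matrix.vecMul (α i) β := by
  ext k
  simp [Matrix.mul_apply, Matrix.vecMul, dotProduct]

/-- multiplication of the rows by a matrix -/
def vm {m : ℕ} (β : ZM m) : (Fin m → ℤ) →+ (Fin m → ℤ) where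
  toFun v := Matrix.vecMul v β
  map_zero' := Matrix.zero_vecMul β
  map_add' v w := Matrix.add_vecMul β v w

theorem nl_mul {m : ℕ} (α : ZM m) (u : (ZM m)ˣ) : NL (α * (u : ZM m)) = NL α := by
  unfold NL
  refine Nat.card_congr
    { toFun := fun M => ⟨M.1.comap (vm (u : ZM m)), fun i => ?_⟩
      invFun := fun M => ⟨M.1.comap (vm ((u⁻¹ : (ZM m)ˣ) : ZM m)), fun i => ?_⟩
      left_inv := fun M => ?_
      right_inv := fun M => ?_ }
  · rw [AddSubgroup.mem_comap]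
    have := M.2 i
    rw [row_mul] at this
    exact this
  · rw [AddSubgroup.mem_comap]
    have e : vm ((u⁻¹ : (ZM m)ˣ) : ZM m) ((α * (u : ZM m)) i) = α i := by
      show Matrix.vecMul ((α * (u : ZM m)) i) ((u⁻¹ : (ZM m)ˣ) : ZM m) = α i
      rw [← row_mul, mul_assoc, Units.mul_inv, mul_one]
    rw [e]
    exact M.2 i
  · apply Subtype.ext
    ext v
    show vm (u : ZM m) (vm ((u⁻¹ : (ZM m)ˣ) : ZM m) v) ∈ M.1 ↔ v ∈ M.1
    have e : vm (u : ZM m) (vm ((u⁻¹ : (ZM m)ˣ) : ZM m) v) = v := by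
      show Matrix.vecMul (Matrix.vecMul v ((u⁻¹ : (ZM m)ˣ) : ZM m)) (u : ZM m) = v
      rw [Matrix.vecMul_vecMul, Units.inv_mul, Matrix.vecMul_one]
    rw [e]
  · apply Subtype.ext
    ext v
    show vm ((u⁻¹ : (ZM m)ˣ) : ZM m) (vm (u : ZM m) v) ∈ M.1 ↔ v ∈ M.1
    have e : vm ((u⁻¹ : (ZM m)ˣ) : ZM m) (vm (u : ZM m) v) = v := by
      show Matrix.vecMul (Matrix.vecMul v (u : ZM m)) ((u⁻¹ : (ZM m)ˣ) : ZM m) = v
      rw [Matrix.vecMul_vecMul, Units.mul_inv, Matrix.vecMul_one]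
    rw [e]

theorem pf_EID (hA : T_ALZ) (hB : T_ALU) : T_EID := by
  intro m q _ D d y x0 γ g hm1 hq hγ
  obtain ⟨⟨⟨-, hR⟩, hdet⟩, -, -, -, hun, -, -⟩ := hA m q hm1 hq
  obtain ⟨h1, hM, -, -, -, hbij⟩ := hB m q hm1 hq
  have hnu : γ.det.natAbs = 1 := (hun γ).1 hγ
  obtain ⟨u, rfl⟩ := hγ
  have hd1 : |(cR (u : ZM m)).det| = 1 := by
    rw [(hdet _).2, hnu]
    norm_num
  have hP : ∀ (x : VN m q) (h : Mat m) (w : VN m q), Kd d y x0 (cR (u : ZM m) * g) x h w =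
      Kd d y x0 g (ac q ((u⁻¹ : (ZM m)ˣ) : ZM m) x) h w := by
    intro x h w
    unfold Kd
    symm
    rw [← Equiv.tsum_eq (Units.mulRight u)]
    refine tsum_congr fun α => ?_
    have e0 : (Units.mulRight u) α = α * (u : ZM m) := rfl
    rw [e0]
    have e1 : ac q (α * (u : ZM m)) (ac q ((u⁻¹ : (ZM m)ˣ) : ZM m) x) = ac q α x := by
      rw [← (hM _ _ _).1, mul_assoc, Units.mul_inv, mul_one]
    have e2 : (α * (u : ZM m)).det.natAbs = α.det.natAbs := by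
      rw [Matrix.det_mul, Int.natAbs_mul, hnu, mul_one]
    have e3 : aN (cR (α * (u : ZM m))) = aN (cR α) := by
      unfold aN
      rw [(hR _ _).1, Matrix.det_mul, abs_mul, hd1, mul_one]
    have e4 : aN (cR (u : ZM m) * g) = aN g := by
      unfold aN
      rw [Matrix.det_mul, abs_mul, hd1, one_mul]
    have e5 : kk (aN (cR (α * (u : ZM m)))) h (cR (α * (u : ZM m))) g =
        kk (aN (cR α)) h (cR α) (cR (u : ZM m) * g) := by
      unfold kk
      rw [e3, e4, (hR _ _).1]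
      simp only [mul_assoc]
    rw [e1, e2, e5, nl_mul]
  unfold Ed
  simp only [hP]
  exact (hbij _ (Units.isUnit _)).sum_comp fun x =>
    ∫⁻ h in D, ∑ w : VN m q, (Kd d y x0 g x (mt h) w) ^ 2 ∂(hm m)

end Pool.Agent.H27.GHY
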